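import Mathlib
import Pool.Agent.MP_92a546_co.Upper
import Pool.Agent.MP_92a546_co.E6

set_option autoImplicit false

namespace Pool.Agent.Results.MP_92a546_co.Counterexample

open Pool.Agent.MP_92a546_co

/-- `A` has rank `m` and all its `m × m` minors have absolute value at most `Δ`. -/
def IsModular {m n : ℕ} (Δ : ℕ) (A : Matrix (Fin m) (Fin n) ℤ) : Prop :=
  (A.map (Int.cast : ℤ → ℝ)).rank = m ∧
    ∀ g : Fin m → Fin n, Function.Injective g → |(A.submatrix id g).det| ≤ Δ

/-- `X` is the set of columns of a `Δ`-modular `m × n` matrix with pairwise distinct columns. -/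
def IsColumnSet (Δ m n : ℕ) (X : Set (Fin m → ℤ)) : Prop :=
  ∃ A : Matrix (Fin m) (Fin n) ℤ, IsModular Δ A ∧ Function.Injective A.col ∧ X = Set.range A.col

/-- `X` is such a column set with the largest possible number `h(Δ, m)` of columns. -/
def IsExtremizer (Δ m : ℕ) (X : Set (Fin m → ℤ)) : Prop :=
  ∃ n, IsColumnSet Δ m n X ∧ ∀ n' X', IsColumnSet Δ m n' X' → n' ≤ n

/-- The integer points of the convex hull of the difference set `S - S`. -/
def diffHull {m : ℕ} (S : Finset (Fin m → ℤ)) : Set (Fin m → ℤ) :=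
  {x | (fun i => (x i : ℝ)) ∈
    convexHull ℝ {y : Fin m → ℝ | ∃ s ∈ S, ∃ t ∈ S, y = fun i => ((s i - t i : ℤ) : ℝ)}}

lemma rows_le {n : ℕ} {A : Matrix (Fin 6) (Fin n) ℤ} (h : IsModular 3 A)
    (f : Fin 6 → Fin 6 → ℤ) (hf : ∀ i, f i ∈ Set.range A.col) : |(Matrix.of f).det| ≤ 3 := by
  choose g hg using hf
  have e : Matrix.of f = (A.submatrix id g).transpose := by
    ext i j
    simp [← hg]
  rw [e, Matrix.det_transpose]
  by_cases hi : Function.Injective g
  · exact_mod_cast h.2 g hi
  · simp only [Function.Injective, not_forall] at hi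
    obtain ⟨i, j, e, hij⟩ := hi
    rw [Matrix.det_zero_of_column_eq hij (fun k => by simp [e])]
    norm_num

lemma span_top {n : ℕ} {A : Matrix (Fin 6) (Fin n) ℤ} (h : IsModular 3 A) :
    Submodule.span ℝ (rc '' Set.range A.col) = ⊤ := by
  apply Submodule.eq_top_of_finrank_eq
  have h1 := h.1
  rw [Matrix.rank_eq_finrank_span_cols] at h1
  rw [← Set.range_comp]
  exact h1.trans (by simp)

lemma bounded {n : ℕ} {X : Set (Fin 6 → ℤ)} (h : IsColumnSet 3 6 n X) : n ≤ 7 ^ 6 := by
  obtain ⟨A, hA, hinj, -⟩ := h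
  have h6 : Module.finrank ℝ (Submodule.span ℝ (rc '' Set.range A.col)) = 6 := by
    rw [span_top hA]
    simp
  obtain ⟨f, hf, -, hli⟩ := Submodule.exists_fun_fin_finrank_span_eq ℝ (rc '' Set.range A.col)
  revert f
  rw [h6]
  intro f hf hli
  choose s hs hfs using hf
  have hu : IsUnit (Matrix.of f) := Matrix.linearIndependent_rows_iff_isUnit.1 hli
  rw [Matrix.isUnit_iff_isUnit_det, isUnit_iff_ne_zero] at hu
  have hD : (Matrix.of s).transpose.det ≠ 0 := by
    rw [Matrix.det_transpose]
    intro h0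
    apply hu
    have : Matrix.of f = (Matrix.of s).map (Int.cast : ℤ → ℝ) := by
      ext i j
      simp [← hfs, rc]
    rw [this, ← Int.cast_det, h0, Int.cast_zero]
  have hc := Finset.card_le_card_of_injOn (s := (Finset.univ : Finset (Fin n)))
    (t := Fintype.piFinset fun _ : Fin 6 => Finset.Icc (-3 : ℤ) 3)
    (fun j => (Matrix.of s).transpose.cramer (A.col j)) ?_ ?_
  · simpa using hc
  · intro j _
    rw [Finset.mem_coe, Fintype.mem_piFinset]
    intro i
    rw [Finset.mem_Icc, ← abs_le]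
    simp only [Matrix.cramer_transpose_apply]
    refine rows_le hA ((Matrix.of s).updateRow i (A.col j)) fun k => ?_
    by_cases e : k = i
    · rw [e, Matrix.updateRow_self]
      exact ⟨j, rfl⟩
    · rw [Matrix.updateRow_ne e]
      exact hs k
  · intro j _ k _ e
    apply hinj
    have h1 := Matrix.mulVec_cramer (Matrix.of s).transpose (A.col j)
    have h2 := Matrix.mulVec_cramer (Matrix.of s).transpose (A.col k)
    simp only at e
    rw [e, h2] at h1
    exact (smul_right_injective _ hD h1).symm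

lemma e6 : IsColumnSet 3 6 73 (Set.range col) := by
  refine ⟨(Matrix.of col).transpose, ⟨?_, fun g _ => ?_⟩, col_inj, rfl⟩
  · rw [Matrix.rank_eq_finrank_span_cols]
    have : Submodule.span ℝ
        (Set.range ((Matrix.of col).transpose.map (Int.cast : ℤ → ℝ)).col) = ⊤ := by
      rw [eq_top_iff, ← (Pi.basisFun ℝ (Fin 6)).span_eq]
      apply Submodule.span_mono
      rintro _ ⟨i, rfl⟩
      obtain ⟨j, hj⟩ := col_basis i
      refine ⟨j, ?_⟩
      funext k
      simp [hj, Pi.single_apply]
    rw [this]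
    simp
  · rw [← Matrix.det_transpose]
    exact e6_mod (fun i => col (g i)) fun i => col_spec _

/-- For `Δ = 3`, `m = 6` extremizers exist and none has the form `conv (S - S) ∩ ℤ^6`. -/
theorem result : (∃ X, IsExtremizer 3 6 X) ∧
    ∀ X, IsExtremizer 3 6 X → ∀ S : Finset (Fin 6 → ℤ), X ≠ diffHull S := by
  classical
  constructor
  · have hne : {n | ∃ X, IsColumnSet 3 6 n X}.Nonempty := ⟨73, _, e6⟩
    have hb : BddAbove {n | ∃ X, IsColumnSet 3 6 n X} := ⟨7 ^ 6, fun n ⟨_, h⟩ => bounded h⟩
    obtain ⟨X, hX⟩ := Nat.sSup_mem hne hb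
    exact ⟨X, _, hX, fun n' X' h => le_csSup hb ⟨X', h⟩⟩
  · rintro X ⟨n, ⟨A, hA, hinj, rfl⟩, hmax⟩ S hS
    have h73 := hmax 73 _ e6
    have hco : ((Finset.univ.image A.col : Finset (Fin 6 → ℤ)) : Set (Fin 6 → ℤ)) =
        Set.range A.col := by simp
    have := upper (S : Set (Fin 6 → ℤ)) (Finset.univ.image A.col) (fun x => by
      rw [← Finset.mem_coe, hco, hS]
      rfl) (by rw [hco, span_top hA]) (fun f hf => rows_le hA f fun i => by
      rw [← hco]
      exact hf i)
    rw [Finset.card_image_of_injective _ hinj, Finset.card_univ, Fintype.card_fin] at this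
    omega

end Pool.Agent.Results.MP_92a546_co.Counterexample
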